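import Pool.Agent.Q280.Pat.Values

/-!
# The value set of the lengths of monochromatic progressions from the origin

Question Q1 for every pattern: a nonempty pattern either contains the digit `1`, and then it is
`u 1 0^w`, or it is `0^i`.
-/

namespace Pool.Agent.Results.MP_956764_co.ValueSets

open Q280.Pat

theorem result :
    (∀ v : List Bool, v ≠ [] → ((∃ u w, v = u ++ true :: List.replicate w false) ∨
      ∃ i, 1 ≤ i ∧ v = List.replicate i false)) ∧
    (∀ v : List Bool, v ≠ [] → ∀ d, 1 ≤ d → ∃ l, 1 ≤ l ∧ ev v (0 + l * d) % 2 ≠ ev v 0 % 2) ∧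
    (∀ (u : List Bool) (w : ℕ),
      {l : ℕ | ∃ d, 1 ≤ d ∧ A (u ++ true :: List.replicate w false) 0 d = l} =
      {l : ℕ | l % 2 = 1} ∪
      {l : ℕ | ∃ c o, 1 ≤ c ∧ c ≤ w ∧ o % 2 = 1 ∧ o < 2 ^ (u.length + 1) ∧ l = 2 ^ c * o}) ∧
    (∀ i : ℕ, 1 ≤ i →
      {l : ℕ | ∃ d, 1 ≤ d ∧ A (List.replicate i false) 0 d = l} =
      {l : ℕ | l % 2 = 1 ∧ l < 2 ^ i} ∪ {l : ℕ | ∃ c, 1 ≤ c ∧ c ≤ i ∧ l = 2 ^ c}) := by
  refine ⟨?_, ?_, ?_, ?_⟩
  · intro v hv
    by_cases ht : true ∈ v
    · left
      have h1 : true ∈ v.reverse := List.mem_reverse.2 ht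
      obtain ⟨v', hv'⟩ := lead_spec v.reverse h1
      refine ⟨v'.reverse, lead v.reverse, ?_⟩
      have h2 := congrArg List.reverse hv'
      rw [List.reverse_reverse, List.reverse_append, List.reverse_cons,
        List.reverse_replicate] at h2
      rw [List.append_assoc] at h2
      exact h2
    · right
      exact ⟨v.length, length_pos v hv, eq_replicate v ht⟩
  · intro v hv d hd
    obtain ⟨l, h1, h2⟩ := A_nonempty v hv 0 d hd
    exact ⟨l, h1, (ev_parity v hv _ _).2 h2⟩
  · intro u w
    have hv : u ++ true :: List.replicate w false ≠ [] := by simp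
    have hlen : (u ++ true :: List.replicate w false).length = u.length + 1 + w := by
      simp only [List.length_append, List.length_cons, List.length_replicate]; omega
    have hval : val (u ++ true :: List.replicate w false) = 2 ^ w * (2 * val u + 1) := by
      have h1 : u ++ true :: List.replicate w false =
          (u ++ [true]) ++ List.replicate w false := by simp
      rw [h1, val_append', val_append, val_replicate, List.length_replicate]
      simp only [Bool.toNat_true]
      ring
    have hU : (2 * val u + 1) % 2 = 1 := by omega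
    have hUK : 2 * val u + 1 < 2 ^ (u.length + 1 + w - w) := by
      have h1 := val_lt u
      have h2 : u.length + 1 + w - w = u.length + 1 := by omega
      rw [h2, pow_succ]; omega
    have hw : w < u.length + 1 + w := by omega
    have h2 : u.length + 1 + w - w = u.length + 1 := by omega
    ext l
    simp only [Set.mem_ofPred_eq, Set.mem_union]
    constructor
    · rintro ⟨d, hd, hA⟩
      rw [A_char _ hv d l hd, hlen, hval] at hA
      rcases Nat.mod_two_eq_zero_or_one l with h | h
      · right
        have := upper_pos hw hU hUK d l hd hA.1 hA.2.1 hA.2.2 h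
        rw [h2] at this
        exact this
      · left; exact h
    · rintro (h | ⟨c, o, hc1, hcw, ho, hoK, rfl⟩)
      · obtain ⟨d, hd, h3, h4⟩ := lower_odd hw hU hUK l h
        refine ⟨d, hd, ?_⟩
        rw [A_char _ hv d l hd, hlen, hval]
        exact ⟨by omega, h3, h4⟩
      · obtain ⟨d, hd, h3, h4⟩ := lower_even hw hU hUK c o hc1 hcw ho (by rw [h2]; exact hoK)
        refine ⟨d, hd, ?_⟩
        rw [A_char _ hv d _ hd, hlen, hval]
        exact ⟨Nat.mul_pos (by positivity) (by omega), h3, h4⟩
  · intro i hi
    have hv : List.replicate i false ≠ [] := by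
      intro h
      have := congrArg List.length h
      simp at this
      omega
    ext l
    simp only [Set.mem_ofPred_eq, Set.mem_union]
    constructor
    · rintro ⟨d, hd, hA⟩
      rw [A_char _ hv d l hd, List.length_replicate, val_replicate] at hA
      exact upper_zero hi d l hd hA.1 hA.2.1 hA.2.2
    · rintro (⟨h, hlt⟩ | ⟨c, hc1, hci, rfl⟩)
      · obtain ⟨d, hd, h3, h4⟩ := lower_odd_zero hi l h hlt
        refine ⟨d, hd, ?_⟩
        rw [A_char _ hv d l hd, List.length_replicate, val_replicate]
        exact ⟨by omega, h3, h4⟩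
      · obtain ⟨d, hd, h3, h4⟩ := lower_pow_zero hi c hci
        refine ⟨d, hd, ?_⟩
        rw [A_char _ hv d _ hd, List.length_replicate, val_replicate]
        exact ⟨Nat.one_le_two_pow, h3, h4⟩

end Pool.Agent.Results.MP_956764_co.ValueSets
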